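import Pool.Agent.MP_0ac583_co.Large

open Pool.Agent.MP_0ac583_co

/-- Counterexample, with the chromatic profile taken over sufficiently large digraphs. -/
theorem Pool.Agent.Results.MP_0ac583_co.LargeOrder.result :
    ∃ (h : ℕ) (H : SimpleGraph (Fin h)) (H₁ H₂ : Digraph (Fin h)) (k : ℕ),
      IsOrientation H₁ H ∧ IsOrientation H₂ H ∧ 0 < threshold H₁ ∧
      threshold H₂ < threshold H₁ ∧ 2 ≤ k ∧
        profileLarge H₁ k < profileLarge H₂ k :=
  large_counterexample
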